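import Mathlib

/-!
# A bigraph which is edge-transitive under its fold group but not cut-percolating
-/

set_option autoImplicit false

namespace Pool.Agent.Results.MP_98b297_co.NotPercolating

section defs

variable {A B : Type} (E : A → B → Prop)

/-- the graph on the left and right vertices -/
def graph : SimpleGraph (A ⊕ B) where
  Adj
    | .inl a, .inr b => E a b
    | .inr b, .inl a => E a b
    | _, _ => False
  symm := ⟨by
    rintro (a | b) (a' | b') h
    · exact h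
    · exact h
    · exact h
    · exact h⟩
  loopless := ⟨by
    rintro (a | b) h
    · exact h
    · exact h⟩

/-- the edges of the bigraph -/
def edges : Set (A × B) := {e | E e.1 e.2}

/-- `φ` is an automorphism of the bigraph (it consists of a permutation of each side). -/
def IsAut (φ : Equiv.Perm A × Equiv.Perm B) : Prop := ∀ a b, E (φ.1 a) (φ.2 b) ↔ E a b

/-- the action on all vertices -/
def act (φ : Equiv.Perm A × Equiv.Perm B) : A ⊕ B → A ⊕ B := Sum.map φ.1 φ.2

/-- the fixed vertices -/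
def Fix (φ : Equiv.Perm A × Equiv.Perm B) : Set (A ⊕ B) := {v | act φ v = v}

/-- `φ` is a cut-involution. -/
def IsCutInvolution (φ : Equiv.Perm A × Equiv.Perm B) : Prop :=
  IsAut E φ ∧ φ * φ = 1 ∧ ¬ ((graph E).induce (Fix φ)ᶜ).Preconnected

/-- `(φ, L)` is a fold: `L` is a union of components of `G - Fix(φ)`, and `L`, `Fix(φ)`, `φ(L)` partition the
vertices. -/
def IsFold (φ : Equiv.Perm A × Equiv.Perm B) (L : Set (A ⊕ B)) : Prop :=
  IsCutInvolution E φ ∧
    (Disjoint L (Fix φ) ∧ ∀ v ∈ L, ∀ w, w ∉ Fix φ → (graph E).Adj v w → w ∈ L) ∧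
    (L ∪ Fix φ ∪ act φ '' L = Set.univ ∧ Disjoint L (act φ '' L) ∧ Disjoint (Fix φ) (act φ '' L))

open Classical in
/-- the left-folding map on the left vertices -/
noncomputable def foldA (φ : Equiv.Perm A × Equiv.Perm B) (L : Set (A ⊕ B)) (a : A) : A :=
  if Sum.inl a ∈ L then a else φ.1 a

open Classical in
/-- the left-folding map on the right vertices -/
noncomputable def foldB (φ : Equiv.Perm A × Equiv.Perm B) (L : Set (A ⊕ B)) (b : B) : B :=
  if Sum.inr b ∈ L then b else φ.2 b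

/-- `G` is cut-percolating. -/
def CutPercolating : Prop :=
  ∃ (m : ℕ) (U : ℕ → Set (A × B)), (∀ i ≤ m, U i ⊆ edges E) ∧ (∃ e, U 0 = {e}) ∧ U m = edges E ∧
    ∀ i < m, ∃ φ L, IsFold E φ L ∧ U (i + 1) = {e ∈ edges E | (foldA φ L e.1, foldB φ L e.2) ∈ U i}

/-- the group generated by the cut-involutions which are part of a fold -/
def foldGroup : Subgroup (Equiv.Perm A × Equiv.Perm B) := Subgroup.closure {φ | ∃ L, IsFold E φ L}

/-- `G` has an edge, and its fold group acts transitively on the edges. -/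
def FoldTransitive : Prop :=
  (edges E).Nonempty ∧ ∀ e ∈ edges E, ∀ e' ∈ edges E, ∃ γ ∈ foldGroup E, (γ.1 e.1, γ.2 e.2) = e'

variable {E}

lemma isFold_of {φ : Equiv.Perm A × Equiv.Perm B} {L : Set (A ⊕ B)} (h1 : IsAut E φ) (h2 : φ * φ = 1)
    (h3 : ∀ v ∈ L, act φ v ∉ L) (h4 : ∀ v, v ∉ L → act φ v ≠ v → act φ v ∈ L)
    (h5 : ∀ v ∈ L, ∀ w, (graph E).Adj v w → act φ w ≠ w → w ∈ L) (h6 : L.Nonempty) : IsFold E φ L := by
  have hinv : ∀ v, act φ (act φ v) = v := by
    rintro (a | b)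
    · change Sum.inl ((φ * φ).1 a) = _
      rw [h2]
      rfl
    · change Sum.inr ((φ * φ).2 b) = _
      rw [h2]
      rfl
  have hL : ∀ v ∈ L, act φ v ≠ v := by
    intro v hv he
    apply h3 v hv
    rw [he]
    exact hv
  refine ⟨⟨h1, h2, ?_⟩, ⟨?_, ?_⟩, ?_, ?_, ?_⟩
  · intro hc
    obtain ⟨x, hx⟩ := h6
    have hy : act φ x ∈ (Fix φ)ᶜ := by
      intro h
      change act φ (act φ x) = act φ x at h
      rw [hinv] at h
      exact hL x hx h.symm
    obtain ⟨p⟩ := hc ⟨x, hL x hx⟩ ⟨act φ x, hy⟩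
    have key : ∀ (u v : ((Fix φ)ᶜ : Set (A ⊕ B))) (p : ((graph E).induce (Fix φ)ᶜ).Walk u v),
        (u : A ⊕ B) ∈ L → (v : A ⊕ B) ∈ L := by
      intro u v p
      induction p with
      | nil => exact id
      | @cons u v w h q ih =>
        intro hu
        exact ih (h5 _ hu _ h v.2)
    exact h3 x hx (key _ _ p hx)
  · rw [Set.disjoint_left]
    exact fun v hv hf => hL v hv hf
  · intro v hv w hw h
    exact h5 v hv w h hw
  · rw [Set.eq_univ_iff_forall]
    intro v
    by_cases hv : v ∈ L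
    · exact Or.inl (Or.inl hv)
    · by_cases hf : act φ v = v
      · exact Or.inl (Or.inr hf)
      · exact Or.inr ⟨act φ v, h4 v hv hf, hinv v⟩
  · rw [Set.disjoint_left]
    rintro v hv ⟨w, hw, rfl⟩
    exact h3 w hw hv
  · rw [Set.disjoint_left]
    rintro v hv ⟨w, hw, rfl⟩
    have h : act φ (act φ w) = act φ w := hv
    rw [hinv] at h
    exact hL w hw h.symm

end defs

/-! ### Folds of planes -/

/-- `z` is the only common point of `m` and `m'`. -/
def Uniq {A B : Type} (E : A → B → Prop) (m m' : B) (z : A) : Prop := ∀ p, E p m → E p m' → p = z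

/-- `m1'` and `m2'` are different lines through `x'` which meet `m1` in different points. -/
def Tri {A B : Type} (E : A → B → Prop) (m1 m1' m2' : B) : Prop :=
  ∃ y, (E y m1 ∧ E y m2') ∧ ∃ z, (E z m1 ∧ E z m1') ∧ y ≠ z ∧ Uniq E m1 m1' z ∧ Uniq E m1 m2' y

/-- `m1'` and `m2'` are the lines through `x'` but not through `x`. -/
def Only {A B : Type} (E : A → B → Prop) (x x' : A) (m1' m2' : B) : Prop :=
  ∀ m, E x' m → ¬ E x m → m = m1' ∨ m = m2'

/-- a configuration at two points `x`, `x'` of the Fano plane -/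
def Facts {A B : Type} (E : A → B → Prop) (x x' : A) : Prop :=
  ∃ m1, (E x m1 ∧ ¬ E x' m1) ∧ ∃ m1', (E x' m1' ∧ ¬ E x m1') ∧ ∃ m2', (E x' m2' ∧ ¬ E x m2') ∧
    Only E x x' m1' m2' ∧ Tri E m1 m1' m2'

section dec

variable {n : ℕ} {E : Fin n → Fin n → Prop} [∀ a b, Decidable (E a b)]

instance (m m' z : Fin n) : Decidable (Uniq E m m' z) :=
  inferInstanceAs (Decidable (∀ p, E p m → E p m' → p = z))

instance (m1 m1' m2' : Fin n) : Decidable (Tri E m1 m1' m2') := inferInstanceAs (Decidable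
  (∃ y, (E y m1 ∧ E y m2') ∧ ∃ z, (E z m1 ∧ E z m1') ∧ y ≠ z ∧ Uniq E m1 m1' z ∧ Uniq E m1 m2' y))

instance (x x' m1' m2' : Fin n) : Decidable (Only E x x' m1' m2') :=
  inferInstanceAs (Decidable (∀ m, E x' m → ¬ E x m → m = m1' ∨ m = m2'))

instance (x x' : Fin n) : Decidable (Facts E x x') := inferInstanceAs (Decidable
  (∃ m1, (E x m1 ∧ ¬ E x' m1) ∧ ∃ m1', (E x' m1' ∧ ¬ E x m1') ∧ ∃ m2', (E x' m2' ∧ ¬ E x m2') ∧
    Only E x x' m1' m2' ∧ Tri E m1 m1' m2'))

end dec

lemma mix {A B : Type} {E : A → B → Prop} {f : A → A} {g : B → B} (hE : ∀ a b, E (f a) (g b) ↔ E a b)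
    (hf : ∀ a, f (f a) = a) {LA : Set A} {LB : Set B}
    (h1 : ∀ a ∈ LA, ∀ b, E a b → g b ≠ b → b ∈ LB) (h2 : ∀ b ∈ LB, ∀ a, E a b → f a ≠ a → a ∈ LA)
    {x x' : A} (hx : x ∈ LA) (hne : x ≠ x') (hxx : f x = x') (hF : Facts E x x') : x' ∈ LA := by
  obtain ⟨m1, ⟨a1, a2⟩, m1', ⟨a3, a4⟩, m2', ⟨a5, a6⟩, a7, y, ⟨a8, a9⟩, z, ⟨a10, a11⟩, a12, a13, a14⟩ := hF
  have hxx' : f x' = x := by rw [← hxx, hf]
  have b1 : E x' (g m1) := by
    rw [← hxx, hE]
    exact a1
  have b2 : ¬ E x (g m1) := by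
    rw [← hxx', hE]
    exact a2
  have c1 : g m1 ≠ m1 := fun h => b2 (h.symm ▸ a1)
  have c2 : m1 ∈ LB := h1 _ hx _ a1 c1
  have c3 : ∀ m, E x' m → ¬ E x m → g m ≠ m := by
    intro m k1 k2 k3
    apply k2
    rw [← hxx', ← k3, hE]
    exact k1
  rcases a7 _ b1 b2 with h | h
  · have d1 : f y ≠ y := by
      intro k
      apply a12
      apply a13 _ a8
      rw [← k, ← h, hE]
      exact a8
    have d2 : y ∈ LA := h2 _ c2 _ a8 d1
    have d3 : m2' ∈ LB := h1 _ d2 _ a9 (c3 _ a5 a6)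
    exact h2 _ d3 _ a5 (by rw [hxx']; exact hne)
  · have d1 : f z ≠ z := by
      intro k
      apply a12
      symm
      apply a14 _ a10
      rw [← k, ← h, hE]
      exact a10
    have d2 : z ∈ LA := h2 _ c2 _ a10 d1
    have d3 : m1' ∈ LB := h1 _ d2 _ a11 (c3 _ a3 a4)
    exact h2 _ d3 _ a3 (by rw [hxx']; exact hne)

section fold

variable {A B : Type} {E : A → B → Prop} {φ : Equiv.Perm A × Equiv.Perm B} {L : Set (A ⊕ B)}

lemma fixA (hF : IsFold E φ L) {a : A} {b : B} (h : E a b) (ha : Sum.inl a ∈ L) (hb : Sum.inr b ∉ L) :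
    φ.2 b = b := by
  by_contra hne
  exact hb (hF.2.1.2 _ ha _ (fun h => hne (Sum.inr_injective h)) h)

lemma fixB (hF : IsFold E φ L) {a : A} {b : B} (h : E a b) (hb : Sum.inr b ∈ L) (ha : Sum.inl a ∉ L) :
    φ.1 a = a := by
  by_contra hne
  exact ha (hF.2.1.2 _ hb _ (fun h => hne (Sum.inl_injective h)) h)

lemma fold_edge (hF : IsFold E φ L) {a : A} {b : B} (h : E a b) : E (foldA φ L a) (foldB φ L b) := by
  unfold foldA foldB
  by_cases ha : Sum.inl a ∈ L
  · by_cases hb : Sum.inr b ∈ L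
    · rwa [if_pos ha, if_pos hb]
    · rwa [if_pos ha, if_neg hb, fixA hF h ha hb]
  · by_cases hb : Sum.inr b ∈ L
    · rwa [if_neg ha, if_pos hb, fixB hF h hb ha]
    · rw [if_neg ha, if_neg hb]
      exact (hF.1.1 a b).2 h

lemma invA (hF : IsFold E φ L) (u : A) : φ.1 (φ.1 u) = u := by
  have : (φ * φ).1 u = u := by rw [hF.1.2.1]; rfl
  exact this

lemma invB (hF : IsFold E φ L) (u : B) : φ.2 (φ.2 u) = u := by
  have : (φ * φ).2 u = u := by rw [hF.1.2.1]; rfl
  exact this

lemma foldA_ne (hF : IsFold E φ L) {x x' : A} (hne : x ≠ x') (h1 : Facts E x x') (h2 : Facts E x' x) :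
    foldA φ L x ≠ foldA φ L x' := by
  have key : ∀ u v : A, u ≠ v → Facts E u v → Sum.inl u ∈ L → Sum.inl v ∉ L → u ≠ φ.1 v := by
    intro u v huv hf hu hv he
    apply hv
    exact mix (f := φ.1) (g := φ.2) (LA := {a | Sum.inl a ∈ L}) (LB := {b | Sum.inr b ∈ L}) hF.1.1
      (invA hF) (fun a ha b hb hn => hF.2.1.2 _ ha _ (fun h => hn (Sum.inr_injective h)) hb)
      (fun b hb a ha hn => hF.2.1.2 _ hb _ (fun h => hn (Sum.inl_injective h)) ha) hu huv
      (by rw [he, invA hF]) hf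
  unfold foldA
  by_cases hx : Sum.inl x ∈ L
  · by_cases hx' : Sum.inl x' ∈ L
    · rwa [if_pos hx, if_pos hx']
    · rw [if_pos hx, if_neg hx']
      exact key _ _ hne h1 hx hx'
  · by_cases hx' : Sum.inl x' ∈ L
    · rw [if_neg hx, if_pos hx']
      exact (key _ _ hne.symm h2 hx' hx).symm
    · rw [if_neg hx, if_neg hx']
      exact fun h => hne (φ.1.injective h)

lemma foldB_ne (hF : IsFold E φ L) {x x' : B} (hne : x ≠ x') (h1 : Facts (fun b a => E a b) x x')
    (h2 : Facts (fun b a => E a b) x' x) : foldB φ L x ≠ foldB φ L x' := by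
  have key : ∀ u v : B, u ≠ v → Facts (fun b a => E a b) u v → Sum.inr u ∈ L → Sum.inr v ∉ L →
      u ≠ φ.2 v := by
    intro u v huv hf hu hv he
    apply hv
    exact mix (E := fun b a => E a b) (f := φ.2) (g := φ.1) (LA := {b | Sum.inr b ∈ L})
      (LB := {a | Sum.inl a ∈ L}) (fun a b => hF.1.1 b a)
      (invB hF) (fun b hb a ha hn => hF.2.1.2 _ hb _ (fun h => hn (Sum.inl_injective h)) ha)
      (fun a ha b hb hn => hF.2.1.2 _ ha _ (fun h => hn (Sum.inr_injective h)) hb) hu huv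
      (by rw [he, invB hF]) hf
  unfold foldB
  by_cases hx : Sum.inr x ∈ L
  · by_cases hx' : Sum.inr x' ∈ L
    · rwa [if_pos hx, if_pos hx']
    · rw [if_pos hx, if_neg hx']
      exact key _ _ hne h1 hx hx'
  · by_cases hx' : Sum.inr x' ∈ L
    · rw [if_neg hx, if_pos hx']
      exact (key _ _ hne.symm h2 hx' hx).symm
    · rw [if_neg hx, if_neg hx']
      exact fun h => hne (φ.2.injective h)

end fold

/-! ### The example: two disjoint Heawood graphs -/

/-- point `a` is on line `b`; the points and lines `0, …, 6` are those of a Fano plane, and `7, …, 13` those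
of a second one -/
def E (a b : Fin 14) : Prop :=
  (a : ℕ) / 7 = (b : ℕ) / 7 ∧
    (((b : ℕ) + 14 - a) % 7 = 1 ∨ ((b : ℕ) + 14 - a) % 7 = 2 ∨ ((b : ℕ) + 14 - a) % 7 = 4)

instance (a b : Fin 14) : Decidable (E a b) := inferInstanceAs (Decidable
  ((a : ℕ) / 7 = (b : ℕ) / 7 ∧
    (((b : ℕ) + 14 - a) % 7 = 1 ∨ ((b : ℕ) + 14 - a) % 7 = 2 ∨ ((b : ℕ) + 14 - a) % 7 = 4)))

lemma factsA : ∀ x x' : Fin 14, x ≠ x' → (∃ b, E x b ∧ E x' b) → Facts E x x' := by
  decide +kernel

instance (b a : Fin 14) : Decidable ((fun b a => E a b) b a) := inferInstanceAs (Decidable (E a b))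

lemma factsB : ∀ x x' : Fin 14, x ≠ x' → (∃ b, E b x ∧ E b x') → Facts (fun b a => E a b) x x' := by
  decide +kernel

lemma meet : ∀ v w v' w' : Fin 14, E v w → E v' w' → (∃ b, E v b ∧ E v' b) → ∃ a, E a w ∧ E a w' := by
  decide +kernel

/-- different edges of the same copy -/
def Near (e e' : Fin 14 × Fin 14) : Prop :=
  e ∈ edges E ∧ e' ∈ edges E ∧ e ≠ e' ∧ ∃ b, E e.1 b ∧ E e'.1 b

lemma near_fold {φ : Equiv.Perm (Fin 14) × Equiv.Perm (Fin 14)} {L : Set (Fin 14 ⊕ Fin 14)}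
    (hF : IsFold E φ L) {e e' : Fin 14 × Fin 14} (h : Near e e') :
    Near (foldA φ L e.1, foldB φ L e.2) (foldA φ L e'.1, foldB φ L e'.2) := by
  obtain ⟨h1, h2, h3, b, h4, h5⟩ := h
  refine ⟨fold_edge hF h1, fold_edge hF h2, ?_, foldB φ L b, fold_edge hF h4, fold_edge hF h5⟩
  intro he
  rw [Prod.mk.injEq] at he
  by_cases hA : e.1 = e'.1
  · by_cases hB : e.2 = e'.2
    · exact h3 (Prod.ext hA hB)
    · obtain ⟨a, k1, k2⟩ := meet _ _ _ _ h1 h2 ⟨b, h4, h5⟩
      exact foldB_ne hF hB (factsB _ _ hB ⟨a, k1, k2⟩) (factsB _ _ (Ne.symm hB) ⟨a, k2, k1⟩) he.2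
  · exact foldA_ne hF hA (factsA _ _ hA ⟨b, h4, h5⟩) (factsA _ _ (Ne.symm hA) ⟨b, h5, h4⟩) he.1

lemma not_percolating : ¬ CutPercolating E := by
  rintro ⟨m, U, -, ⟨e0, h0⟩, hm, hstep⟩
  have key : ∀ i ≤ m, ∀ e e', Near e e' → e ∈ U i → e' ∉ U i := by
    intro i
    induction i with
    | zero =>
      intro _ u v hp hu hv
      rw [h0] at hu hv
      exact hp.2.2.1 (hu.trans hv.symm)
    | succ i ih =>
      intro hi u v hp hu hv
      obtain ⟨φ, L, hF, hU⟩ := hstep i (by omega)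
      rw [hU] at hu hv
      exact ih (by omega) _ _ (near_fold hF hp) hu.2 hv.2
  have h1 : Near (0, 1) (0, 2) := by
    refine ⟨?_, ?_, by decide, 1, by decide, by decide⟩
    · change E 0 1
      decide
    · change E 0 2
      decide
  exact key m le_rfl _ _ h1 (hm ▸ h1.1) (hm ▸ h1.2.1)

/-- the permutation with given values -/
def mkPerm {n : ℕ} (f : Fin n → Fin n) (h : ∀ x, f (f x) = x) : Equiv.Perm (Fin n) := ⟨f, f, h, h⟩

/-- the exchange of the two copies -/
def p0 : Equiv.Perm (Fin 14) := mkPerm ![7, 8, 9, 10, 11, 12, 13, 0, 1, 2, 3, 4, 5, 6] (by decide)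

/-- the exchange of the two copies with `x ↦ x + 1` -/
def p1 : Equiv.Perm (Fin 14) := mkPerm ![8, 9, 10, 11, 12, 13, 7, 6, 0, 1, 2, 3, 4, 5] (by decide)

/-- the exchange of the two copies with `x ↦ 2 x` -/
def p2 : Equiv.Perm (Fin 14) := mkPerm ![7, 9, 11, 13, 8, 10, 12, 0, 4, 1, 5, 2, 6, 3] (by decide)

/-- the first copy -/
def LB : Fin 14 ⊕ Fin 14 → Bool
  | .inl a => decide (a < 7)
  | .inr b => decide (b < 7)

lemma adj_iff (v w : Fin 14 ⊕ Fin 14) : (graph E).Adj v w ↔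
    (match v, w with
    | .inl a, .inr b => decide (E a b)
    | .inr b, .inl a => decide (E a b)
    | _, _ => false) = true := by
  rcases v with a | b <;> rcases w with a' | b'
  · simp [graph]
  · simp [graph]
  · simp [graph]
  · simp [graph]

instance : DecidableRel (graph E).Adj := fun v w => decidable_of_iff _ (adj_iff v w).symm

lemma fold_swap (p : Equiv.Perm (Fin 14)) (h1 : ∀ a b, E (p a) (p b) ↔ E a b) (h2 : p * p = 1)
    (h3 : ∀ x : Fin 14, x < 7 ↔ ¬ p x < 7) : IsFold E (p, p) {v | LB v = true} := by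
  have hL : ∀ v, LB (act (p, p) v) = true ↔ ¬ LB v = true := by
    rintro (a | a)
    · change decide (p a < 7) = true ↔ ¬ decide (a < 7) = true
      rw [decide_eq_true_iff, decide_eq_true_iff, h3 a, not_not]
    · change decide (p a < 7) = true ↔ ¬ decide (a < 7) = true
      rw [decide_eq_true_iff, decide_eq_true_iff, h3 a, not_not]
  refine isFold_of h1 ?_ ?_ ?_ ?_ ⟨Sum.inl 0, by decide⟩
  · exact Prod.ext h2 h2
  · intro v hv h
    exact (hL v).1 h hv
  · intro v hv _
    exact (hL v).2 hv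
  · have : ∀ v, LB v = true → ∀ w, (graph E).Adj v w → LB w = true := by
      decide +kernel
    intro v hv w h _
    exact this v hv w h

lemma fold0 : IsFold E (p0, p0) {v | LB v = true} :=
  fold_swap p0 (by decide +kernel) (by decide +kernel) (by decide +kernel)

lemma fold1 : IsFold E (p1, p1) {v | LB v = true} :=
  fold_swap p1 (by decide +kernel) (by decide +kernel) (by decide +kernel)

lemma fold2 : IsFold E (p2, p2) {v | LB v = true} :=
  fold_swap p2 (by decide +kernel) (by decide +kernel) (by decide +kernel)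

/-- the words in the swaps -/
def word (i : Fin 7) (j : Fin 3) (k : Fin 2) : Equiv.Perm (Fin 14) :=
  p0 ^ (k : ℕ) * ((p0 * p1) ^ (i : ℕ) * (p0 * p2) ^ (j : ℕ))

lemma word_mem (i : Fin 7) (j : Fin 3) (k : Fin 2) : (word i j k, word i j k) ∈ foldGroup E := by
  have m0 : (p0, p0) ∈ foldGroup E := Subgroup.subset_closure ⟨_, fold0⟩
  have m1 : (p1, p1) ∈ foldGroup E := Subgroup.subset_closure ⟨_, fold1⟩
  have m2 : (p2, p2) ∈ foldGroup E := Subgroup.subset_closure ⟨_, fold2⟩
  exact mul_mem (pow_mem m0 _) (mul_mem (pow_mem (mul_mem m0 m1) _) (pow_mem (mul_mem m0 m2) _))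

lemma word_trans : ∀ a b : Fin 14, E a b → ∃ i j k, word i j k 0 = a ∧ word i j k 1 = b := by
  decide +kernel

lemma transitive : FoldTransitive E := by
  constructor
  · refine ⟨(0, 1), ?_⟩
    change E 0 1
    decide
  · rintro ⟨a, b⟩ h ⟨a', b'⟩ h'
    obtain ⟨i, j, k, e1, e2⟩ := word_trans a b h
    obtain ⟨i', j', k', e1', e2'⟩ := word_trans a' b' h'
    refine ⟨_, mul_mem (word_mem i' j' k') (inv_mem (word_mem i j k)), ?_⟩
    rw [Prod.mk.injEq]
    constructor
    · change word i' j' k' ((word i j k).symm a) = a'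
      rw [← e1, Equiv.symm_apply_apply, e1']
    · change word i' j' k' ((word i j k).symm b) = b'
      rw [← e2, Equiv.symm_apply_apply, e2']

/-- **Theorem.** There is a finite bigraph whose fold group acts transitively on its nonempty edge set but
which is not cut-percolating. -/
theorem result : ∃ (A B : Type) (_ : Finite A) (_ : Finite B) (E : A → B → Prop),
    FoldTransitive E ∧ ¬ CutPercolating E :=
  ⟨Fin 14, Fin 14, inferInstance, inferInstance, E, transitive, not_percolating⟩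

end Pool.Agent.Results.MP_98b297_co.NotPercolating
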